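import Pool.Agent.W188.MZ.Stm

/-!
Project MZ (owner helper188): local inequality in a small disc.
-/

set_option autoImplicit false

open Complex MeasureTheory Set Filter Topology

namespace Pool.Agent.W924.MZ

open Pool.Agent.W188.QS Pool.Agent.W188.GP Pool.Agent.W188.MZ

theorem log_facts {T : ℝ} (hT : Real.exp 200 ≤ T) :
    200 ≤ Real.log T ∧ 10000 ≤ T ∧ Real.log T ≤ T / 1000 := by
  have h0 : (0 : ℝ) < T := (Real.exp_pos _).trans_le hT
  have hL : 200 ≤ Real.log T := (Real.le_log_iff_exp_le h0).mpr hT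
  have he : (10000 : ℝ) ≤ Real.exp 200 := by
    have h1 : (2 : ℝ) ≤ Real.exp 1 := by
      have := Real.add_one_le_exp (1 : ℝ)
      linarith
    have h2 : Real.exp 200 = Real.exp 1 ^ 200 := by
      rw [← Real.exp_nat_mul]
      norm_num
    rw [h2]
    calc (10000 : ℝ) ≤ 2 ^ 200 := by norm_num
      _ ≤ Real.exp 1 ^ 200 := pow_le_pow_left₀ (by norm_num) h1 200
  refine ⟨hL, he.trans hT, ?_⟩
  have h1 := Real.add_one_le_exp (Real.log T / 4)
  have h2 : Real.exp (Real.log T / 4) ^ 4 = T := by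
    rw [← Real.exp_nat_mul]
    have : ((4 : ℕ) : ℝ) * (Real.log T / 4) = Real.log T := by
      push_cast
      ring
    rw [this, Real.exp_log h0]
  have h3 : (Real.log T / 4) ^ 4 ≤ T :=
    (pow_le_pow_left₀ (by linarith) (by linarith) 4).trans h2.le
  have h4 : (200 : ℝ) ^ 3 ≤ Real.log T ^ 3 := pow_le_pow_left₀ (by norm_num) hL 3
  have h5 : Real.log T * 200 ^ 3 ≤ Real.log T * Real.log T ^ 3 :=
    mul_le_mul_of_nonneg_left h4 (by linarith)
  have h6 : (Real.log T / 4) ^ 4 = Real.log T * Real.log T ^ 3 / 256 := by ring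
  rw [h6] at h3
  linarith

theorem cp_re (t : ℝ) : (cp t).re = 1 / 2 := by simp [cp]
theorem cp_im (t : ℝ) : (cp t).im = t := by simp [cp]

theorem rf_re (s : ℂ) : (rf s).re = 1 - s.re := by simp [rf]
theorem rf_im (s : ℂ) : (rf s).im = s.im := by simp [rf]

theorem norm_ww {c : ℂ} (hc : ‖c‖ = 1) (s : ℂ) : ‖ww c 2 s‖ = (‖XX s‖⁻¹) ^ 2 := by
  unfold ww
  rw [norm_mul, hc, one_mul, norm_pow, norm_inv]

/-- the points with `w = 1` are on the critical line -/
theorem re_of_ww (hB : StBasic) (hLine : StLine) {c : ℂ} (hc : ‖c‖ = 1) {s : ℂ}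
    (h1 : 50 ≤ s.im) (h2 : 0 ≤ s.re) (h3 : s.re ≤ 1) (hw : ww c 2 s = 1) : s.re = 1 / 2 := by
  obtain ⟨-, -, -, -, -, hgt, -⟩ := hLine
  have hn : (‖XX s‖⁻¹) ^ 2 = 1 := by rw [← norm_ww hc, hw, norm_one]
  have hn1 : ‖XX s‖⁻¹ = 1 := by
    have h4 : 0 ≤ ‖XX s‖⁻¹ := by positivity
    nlinarith
  have hn2 : ‖XX s‖ = 1 := by rw [inv_eq_one] at hn1; exact hn1
  rcases lt_trichotomy s.re (1 / 2) with h | h | h
  · exfalso
    have h5 := hgt (rf s) (by rw [rf_re]; linarith) (by rw [rf_re]; linarith)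
      (by rw [rf_im]; exact h1)
    have h6 := (hB s (by linarith)).2.2.2.1
    rw [h6, norm_inv, RCLike.norm_conj, hn2, inv_one] at h5
    exact lt_irrefl _ h5
  · exact h
  · exfalso
    have h5 := hgt s h (by linarith) h1
    rw [hn2] at h5
    exact lt_irrefl _ h5

/-- bound for `w` near the critical line -/
theorem ww_bd (hB : StBasic) {K : ℝ} (hK : ∀ s : ℂ, 1 / 2 ≤ s.re → s.re ≤ 4 → 1 ≤ s.im →
    Real.exp (-K) * s.im ^ (s.re - 1 / 2) ≤ ‖XX s‖ ∧ ‖XX s‖ ≤ Real.exp K * s.im ^ (s.re - 1 / 2))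
    (hK0 : 0 < K) {T : ℝ} (hT : Real.exp 200 ≤ T) {c : ℂ} (hc : ‖c‖ = 1) {z : ℂ}
    (hz1 : |z.re - 1 / 2| ≤ 16 / Real.log T) (hz2 : T / 10 ≤ z.im) (hz3 : z.im ≤ 70 * T) :
    ‖ww c 2 z‖ ≤ Real.exp (2 * K + 64) := by
  obtain ⟨hL, hT1, hL2⟩ := log_facts hT
  have hLpos : 0 < Real.log T := by linarith
  have h16 : 16 / Real.log T ≤ 1 / 4 := by
    rw [div_le_div_iff₀ hLpos (by norm_num)]
    linarith
  have hz4 := abs_le.1 hz1
  have him : 1 ≤ z.im := by linarith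
  rw [norm_ww hc]
  have e2 : Real.exp (2 * K + 64) = (Real.exp (K + 32)) ^ 2 := by
    rw [← Real.exp_nat_mul]
    congr 1
    push_cast
    ring
  rw [e2]
  refine pow_le_pow_left₀ (by positivity) ?_ 2
  rcases le_or_gt (1 / 2) z.re with h | h
  · obtain ⟨h1, -⟩ := hK z h (by linarith) him
    have h2 : Real.exp (-K) ≤ ‖XX z‖ := by
      refine le_trans ?_ h1
      exact le_mul_of_one_le_right (Real.exp_pos _).le (Real.one_le_rpow him (by linarith))
    have h3 : ‖XX z‖⁻¹ ≤ Real.exp K := by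
      rw [inv_le_comm₀ (lt_of_lt_of_le (Real.exp_pos _) h2) (Real.exp_pos _), ← Real.exp_neg]
      exact h2
    exact h3.trans (Real.exp_le_exp.2 (by linarith))
  · obtain ⟨-, h1⟩ := hK (rf z) (by rw [rf_re]; linarith) (by rw [rf_re]; linarith)
      (by rw [rf_im]; exact him)
    have h6 := (hB z him).2.2.2.1
    rw [h6, norm_inv, RCLike.norm_conj, rf_re, rf_im] at h1
    refine h1.trans ?_
    rw [Real.exp_add]
    refine mul_le_mul_of_nonneg_left ?_ (Real.exp_pos _).le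
    rw [Real.rpow_def_of_pos (by linarith)]
    apply Real.exp_le_exp.2
    have hlog : Real.log z.im ≤ 69 + Real.log T := by
      have h7 : Real.log z.im ≤ Real.log (70 * T) := Real.log_le_log (by linarith) hz3
      rw [Real.log_mul (by norm_num) (by linarith)] at h7
      have h8 : Real.log 70 ≤ 70 - 1 := Real.log_le_sub_one_of_pos (by norm_num)
      linarith
    have hlog0 : 0 ≤ Real.log z.im := Real.log_nonneg him
    have h9 : 1 - z.re - 1 / 2 ≤ 16 / Real.log T := by linarith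
    have h10 : 0 ≤ 1 - z.re - 1 / 2 := by linarith
    calc Real.log z.im * (1 - z.re - 1 / 2) ≤ (2 * Real.log T) * (16 / Real.log T) :=
          mul_le_mul (by linarith) h9 h10 (by linarith)
      _ = 32 := by field_simp; norm_num

/-- Lipschitz bound for `w` -/
theorem ww_lip (hB : StBasic) (hLine : StLine) : ∃ C2 : ℝ, 1 ≤ C2 ∧ ∀ T : ℝ, Real.exp 200 ≤ T →
    ∀ c : ℂ, ‖c‖ = 1 → (∀ z : ℂ, |z.re - 1 / 2| ≤ 16 / Real.log T → T / 10 ≤ z.im →
      z.im ≤ 70 * T → ‖ww c 2 z‖ ≤ C2) ∧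
    ∀ z z' : ℂ, |z.re - 1 / 2| ≤ 16 / Real.log T → T / 10 ≤ z.im → z.im ≤ 70 * T →
      |z'.re - 1 / 2| ≤ 16 / Real.log T → T / 10 ≤ z'.im → z'.im ≤ 70 * T →
      ‖ww c 2 z' - ww c 2 z‖ ≤ 4 * C2 * Real.log T * ‖z' - z‖ := by
  obtain ⟨-, -, -, -, -, -, hder, hlog, ⟨K, hK0, hK⟩, -⟩ := hLine
  refine ⟨Real.exp (2 * K + 64), Real.one_le_exp (by linarith), ?_⟩
  intro T hT c hc
  have hbd : ∀ z : ℂ, |z.re - 1 / 2| ≤ 16 / Real.log T → T / 10 ≤ z.im →
      z.im ≤ 70 * T → ‖ww c 2 z‖ ≤ Real.exp (2 * K + 64) := fun z hz1 hz2 hz3 =>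
    ww_bd hB hK hK0 hT hc hz1 hz2 hz3
  refine ⟨hbd, ?_⟩
  obtain ⟨hL, hT1, hL2⟩ := log_facts hT
  have hLpos : 0 < Real.log T := by linarith
  have h16 : 16 / Real.log T ≤ 1 / 4 := by
    rw [div_le_div_iff₀ hLpos (by norm_num)]
    linarith
  set D : Set ℂ := {z : ℂ | |z.re - 1 / 2| ≤ 16 / Real.log T ∧ T / 10 ≤ z.im ∧ z.im ≤ 70 * T}
    with hD
  have hconv : Convex ℝ D := by
    have e : D = Complex.re ⁻¹' (Icc (1 / 2 - 16 / Real.log T) (1 / 2 + 16 / Real.log T)) ∩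
        Complex.im ⁻¹' (Icc (T / 10) (70 * T)) := by
      ext z
      simp only [hD, mem_ofPred_eq, mem_inter_iff, mem_preimage, mem_Icc, abs_le]
      constructor
      · rintro ⟨⟨a1, a2⟩, a3, a4⟩
        exact ⟨⟨by linarith, by linarith⟩, a3, a4⟩
      · rintro ⟨⟨a1, a2⟩, a3, a4⟩
        exact ⟨⟨by linarith, by linarith⟩, a3, a4⟩
    rw [e]
    exact ((convex_Icc _ _).is_linear_preimage Complex.reLm.isLinear).inter
      ((convex_Icc _ _).is_linear_preimage Complex.imLm.isLinear)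
  intro z z' hz1 hz2 hz3 hz1' hz2' hz3'
  refine Convex.norm_image_sub_le_of_norm_hasDerivWithin_le (s := D)
    (f' := fun z => -(((2 : ℕ) : ℂ) * ww c 2 z * logDeriv XX z)) (fun x hx => ?_) (fun x hx => ?_)
    hconv ⟨hz1, hz2, hz3⟩ ⟨hz1', hz2', hz3'⟩
  · obtain ⟨hx1, hx2, hx3⟩ := hx
    have := abs_le.1 hx1
    exact (hder c 2 x (by linarith) (by linarith)).hasDerivWithinAt
  · obtain ⟨hx1, hx2, hx3⟩ := hx
    have hx4 := abs_le.1 hx1
    have hl := hlog x (by linarith) (by linarith) (by linarith)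
    have him0 : 0 < x.im := by linarith
    have h14 : 14 / x.im ≤ 1 := by
      rw [div_le_one him0]
      linarith
    have hpi : 2 * Real.pi ≤ 8 := by linarith [Real.pi_lt_four]
    have hpi0 : 0 < 2 * Real.pi := by positivity
    have hq : 1 ≤ x.im / (2 * Real.pi) := by
      rw [one_le_div hpi0]
      linarith
    have hlg0 : 0 ≤ Real.log (x.im / (2 * Real.pi)) := Real.log_nonneg hq
    have hlg1 : Real.log (x.im / (2 * Real.pi)) ≤ 69 + Real.log T := by
      have h7 : Real.log (x.im / (2 * Real.pi)) ≤ Real.log (70 * T) := by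
        refine Real.log_le_log (by linarith) ?_
        refine (div_le_self him0.le ?_).trans hx3
        linarith [Real.pi_gt_three]
      rw [Real.log_mul (by norm_num) (by linarith)] at h7
      have h8 : Real.log 70 ≤ 70 - 1 := Real.log_le_sub_one_of_pos (by norm_num)
      linarith
    have hld : ‖logDeriv XX x‖ ≤ 2 * Real.log T := by
      have e : logDeriv XX x = (logDeriv XX x - (Real.log (x.im / (2 * Real.pi)) : ℂ)) +
          (Real.log (x.im / (2 * Real.pi)) : ℂ) := by ring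
      rw [e]
      refine (norm_add_le _ _).trans ?_
      rw [Complex.norm_real, Real.norm_eq_abs, abs_of_nonneg hlg0]
      linarith
    rw [norm_neg, norm_mul, norm_mul]
    have h2 : ‖((2 : ℕ) : ℂ)‖ = 2 := by simp
    rw [h2]
    have hw := hbd x hx1 hx2 hx3
    calc 2 * ‖ww c 2 x‖ * ‖logDeriv XX x‖ ≤ 2 * Real.exp (2 * K + 64) * (2 * Real.log T) := by
          gcongr
      _ = 4 * Real.exp (2 * K + 64) * Real.log T := by ring

theorem ww_eq2 (h1 : StTau) (hXX : ∀ t : ℝ, ‖XX (cp t)‖ = 1) (γ : ℝ) {t : ℝ} (ht : 100 ≤ t) :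
    ww (XX (cp 100) ^ 2 * cexp (4 * Real.pi * γ * I)) 2 (cp t) =
      cexp (((4 * (Real.pi * (γ - vv t)) : ℝ) : ℂ) * I) := by
  obtain ⟨-, -, -, -, -, -, -, -, -, -, hX, -, -⟩ := h1
  unfold ww
  rw [hX t ht]
  have h0 : XX (cp 100) ≠ 0 := by
    intro h
    have := hXX 100
    rw [h, norm_zero] at this
    norm_num at this
  rw [mul_inv, mul_pow, ← Complex.exp_neg, ← Complex.exp_nat_mul]
  have e : XX (cp 100) ^ 2 * cexp (4 * Real.pi * γ * I) *
      ((XX (cp 100))⁻¹ ^ 2 * cexp (((2 : ℕ) : ℂ) * -(2 * Real.pi * vv t * I))) =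
      cexp (4 * Real.pi * γ * I) * cexp (((2 : ℕ) : ℂ) * -(2 * Real.pi * vv t * I)) := by
    field_simp
  rw [e, ← Complex.exp_add]
  congr 1
  push_cast
  ring

theorem ww_one_iff2 (h1 : StTau) (hXX : ∀ t : ℝ, ‖XX (cp t)‖ = 1) (γ : ℝ) {t : ℝ}
    (ht : 100 ≤ t) : ww (XX (cp 100) ^ 2 * cexp (4 * Real.pi * γ * I)) 2 (cp t) = 1 →
      ∃ n : ℤ, vv t = n + γ ∨ vv t = n + (γ + 1 / 2) := by
  rw [ww_eq2 h1 hXX γ ht, Complex.exp_eq_one_iff]
  rintro ⟨n, hn⟩
  have h2 : ((4 * (Real.pi * (γ - vv t)) : ℝ) : ℂ) = ((n * (2 * Real.pi) : ℝ) : ℂ) := by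
    apply mul_right_cancel₀ Complex.I_ne_zero
    rw [hn]
    push_cast
    ring
  have h3 : 4 * (Real.pi * (γ - vv t)) = n * (2 * Real.pi) := by exact_mod_cast h2
  have h4 : 2 * (γ - vv t) = n := by
    have := Real.pi_pos
    field_simp at h3
    linarith
  rcases Int.even_or_odd' n with ⟨k, hk | hk⟩
  · refine ⟨-k, Or.inl ?_⟩
    rw [hk] at h4
    push_cast at h4 ⊢
    linarith
  · refine ⟨-k - 1, Or.inr ?_⟩
    rw [hk] at h4
    push_cast at h4 ⊢
    linarith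

theorem S_nonneg (m : ℕ) (γ T t : ℝ) (hT : 1 ≤ T) : 0 ≤ Sg m γ T t := by
  unfold Sg
  refine Finset.sum_nonneg fun n _ => ?_
  have h1 : 0 ≤ Real.log T := Real.log_nonneg hT
  unfold ZZ
  positivity

/-- one node -/
theorem node_le (hTau : StTau) (m : ℕ) (γ T t₀ t : ℝ) (hT : 1 ≤ T) (n : ℤ) (hn : vv t = n + γ)
    (h1 : t₀ - 2 * Real.log T < t) (h2 : t ≤ t₀ + 2 * Real.log T) :
    ZZ t / (1 + Real.log T * |t - t₀|) ^ m ≤ Sg m γ T t₀ := by
  obtain ⟨-, -, -, -, -, htv, -, -, -, -, -, -, hnd⟩ := hTau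
  have ht : tau (n + γ) = t := by rw [← hn, htv]
  have hmem : n ∈ nd γ (t₀ - 2 * Real.log T) (t₀ + 2 * Real.log T) := by
    rw [hnd, ht]
    exact ⟨h1, h2⟩
  unfold Sg
  have := Finset.single_le_sum (f := fun n : ℤ => ZZ (tau (n + γ)) /
    (1 + Real.log T * |tau (n + γ) - t₀|) ^ m) (fun i _ => by
      have h1 : 0 ≤ Real.log T := Real.log_nonneg hT
      unfold ZZ
      positivity) hmem
  simp only [ht] at this
  exact this

/-- sums over the sample points -/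
theorem sum_le (hTau : StTau) (hXX : ∀ t : ℝ, ‖XX (cp t)‖ = 1) (m : ℕ) (γ T t₀ : ℝ) (hT : 1 ≤ T)
    (F : Finset ℝ) (hF : ∀ t ∈ F, 100 ≤ t ∧
      ww (XX (cp 100) ^ 2 * cexp (4 * Real.pi * γ * I)) 2 (cp t) = 1 ∧
      t₀ - 2 * Real.log T < t ∧ t ≤ t₀ + 2 * Real.log T) :
    ∑ t ∈ F, ZZ t / (1 + Real.log T * |t - t₀|) ^ m ≤ S2 m γ T t₀ := by
  classical
  have hTau' := hTau
  obtain ⟨-, -, -, -, -, htv, hvt, htmono, -, -, -, -, hnd⟩ := hTau'
  have hL0 : 0 ≤ Real.log T := Real.log_nonneg hT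
  have hnn : ∀ t : ℝ, 0 ≤ ZZ t / (1 + Real.log T * |t - t₀|) ^ m := by
    intro t
    unfold ZZ
    positivity
  have hinj : ∀ δ : ℝ, Function.Injective (fun n : ℤ => tau (n + δ)) := by
    intro δ a b hab
    have := htmono.injective hab
    have h3 : (a : ℝ) = b := by linarith
    exact_mod_cast h3
  set A : Finset ℝ := (nd γ (t₀ - 2 * Real.log T) (t₀ + 2 * Real.log T)).image
    (fun n : ℤ => tau (n + γ)) with hA
  set B : Finset ℝ := (nd (γ + 1 / 2) (t₀ - 2 * Real.log T) (t₀ + 2 * Real.log T)).image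
    (fun n : ℤ => tau (n + (γ + 1 / 2))) with hB
  have hsub : F ⊆ A ∪ B := by
    intro t ht
    obtain ⟨h1, h2, h3, h4⟩ := hF t ht
    obtain ⟨n, hn | hn⟩ := ww_one_iff2 hTau hXX γ h1 h2
    · refine Finset.mem_union_left _ (Finset.mem_image.2 ⟨n, ?_, by rw [← hn, htv]⟩)
      rw [hnd, ← hn, htv]
      exact ⟨h3, h4⟩
    · refine Finset.mem_union_right _ (Finset.mem_image.2 ⟨n, ?_, by rw [← hn, htv]⟩)
      rw [hnd, ← hn, htv]
      exact ⟨h3, h4⟩
  refine (Finset.sum_le_sum_of_subset_of_nonneg hsub fun t _ _ => hnn t).trans ?_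
  have h5 := Finset.sum_union_inter (s₁ := A) (s₂ := B)
    (f := fun t => ZZ t / (1 + Real.log T * |t - t₀|) ^ m)
  have h6 : 0 ≤ ∑ t ∈ A ∩ B, ZZ t / (1 + Real.log T * |t - t₀|) ^ m :=
    Finset.sum_nonneg fun t _ => hnn t
  have h7 : ∑ t ∈ A, ZZ t / (1 + Real.log T * |t - t₀|) ^ m = Sg m γ T t₀ := by
    rw [hA, Finset.sum_image fun _ _ _ _ h => hinj γ h]
    rfl
  have h8 : ∑ t ∈ B, ZZ t / (1 + Real.log T * |t - t₀|) ^ m = Sg m (γ + 1 / 2) T t₀ := by
    rw [hB, Finset.sum_image fun _ _ _ _ h => hinj (γ + 1 / 2) h]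
    rfl
  unfold S2
  rw [← h7, ← h8]
  linarith

/-- weights at neighbouring points -/
theorem weight_le {m : ℕ} {L x y : ℝ} (hL : 0 ≤ L) (h : L * |x| ≤ 16 + L * |y|) :
    1 / (1 + L * |y|) ^ m ≤ 17 ^ m / (1 + L * |x|) ^ m := by
  have h1 : 0 ≤ L * |y| := by positivity
  have h2 : 0 ≤ L * |x| := by positivity
  rw [div_le_div_iff₀ (by positivity) (by positivity), one_mul, ← mul_pow]
  exact pow_le_pow_left₀ (by positivity) (by linarith) m

theorem mz_locc (hTau : StTau) (hLine : StLine) (hB : StBasic) (h1 : StKer) (h2 : StRes2) :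
    StLocC := by
  classical
  intro m hm
  obtain ⟨CK, TK, hCK, hKer⟩ := h1 m hm
  obtain ⟨CR, TR, hRes⟩ := h2
  obtain ⟨C2, hC2, hlip⟩ := ww_lip hB hLine
  have hLine' := hLine
  obtain ⟨hlam, hXX, -, -, -, -, -, -, -, hPPfin⟩ := hLine'
  refine ⟨17 ^ m * (1 + 4 * C2 * CK),
    max (max TK TR) (max (Real.exp 200) (((1 + C2) * |CR| + 1) ^ 4)), by positivity, ?_⟩
  intro T γ t₀ hT ht1 ht2 s hs
  have hTK : TK ≤ T := (le_max_left _ _).trans ((le_max_left _ _).trans hT)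
  have hTR : TR ≤ T := (le_max_right _ _).trans ((le_max_left _ _).trans hT)
  have hT200 : Real.exp 200 ≤ T := (le_max_left _ _).trans ((le_max_right _ _).trans hT)
  have hT4 : ((1 + C2) * |CR| + 1) ^ 4 ≤ T :=
    (le_max_right _ _).trans ((le_max_right _ _).trans hT)
  obtain ⟨hL, hT1, hL2⟩ := log_facts hT200
  set L := Real.log T with hLdef
  have hLpos : 0 < L := by linarith
  have h16 : 16 / L ≤ 1 / 4 := by
    rw [div_le_div_iff₀ hLpos (by norm_num)]
    linarith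
  have hre : |s.re - 1 / 2| ≤ 16 / L := by
    have := (Complex.abs_re_le_norm (s - cp t₀)).trans hs
    rwa [Complex.sub_re, cp_re] at this
  have him : |s.im - t₀| ≤ 16 / L := by
    have := (Complex.abs_im_le_norm (s - cp t₀)).trans hs
    rwa [Complex.sub_im, cp_im] at this
  have hre' := abs_le.1 hre
  have him' := abs_le.1 him
  have hLim : L * |s.im - t₀| ≤ 16 := by
    have := mul_le_mul_of_nonneg_left him hLpos.le
    rwa [mul_div_cancel₀ _ hLpos.ne'] at this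
  have hS2 : 0 ≤ S2 m γ T t₀ := add_nonneg (S_nonneg m γ T t₀ (by linarith))
    (S_nonneg m (γ + 1 / 2) T t₀ (by linarith))
  have hTh : 0 ≤ T ^ (-(1 / 2 : ℝ)) := Real.rpow_nonneg (by linarith) _
  obtain ⟨c, hcdef⟩ : ∃ c : ℂ, c = XX (cp 100) ^ 2 * cexp (4 * Real.pi * γ * I) := ⟨_, rfl⟩
  have hc1 : ‖c‖ = 1 := by
    have e : (4 : ℂ) * Real.pi * γ * I = ((4 * Real.pi * γ : ℝ) : ℂ) * I := by push_cast; ring
    rw [hcdef, norm_mul, norm_pow, hXX, e, Complex.norm_exp_ofReal_mul_I, one_pow, one_mul]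
  obtain ⟨hbd, hlipc⟩ := hlip T hT200 c hc1
  have h17 : (0 : ℝ) < 17 ^ m := by positivity
  by_cases hw : ww c 2 s = 1
  · -- `s` is a node
    have hsre : s.re = 1 / 2 := re_of_ww hB hLine hc1 (by linarith) (by linarith) (by linarith) hw
    have hscp : s = cp s.im := by
      apply Complex.ext
      · rw [cp_re, hsre]
      · rw [cp_im]
    have hw' : ww (XX (cp 100) ^ 2 * cexp (4 * Real.pi * γ * I)) 2 (cp s.im) = 1 := by
      rw [← hscp, ← hcdef]
      exact hw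
    have hone : ZZ s.im / (1 + L * |s.im - t₀|) ^ m ≤ S2 m γ T t₀ := by
      have h3 := sum_le hTau hXX m γ T t₀ (by linarith) {s.im} (by
        intro t ht
        rw [Finset.mem_singleton] at ht
        subst ht
        exact ⟨by linarith, hw', by linarith, by linarith⟩)
      rwa [Finset.sum_singleton] at h3
    have hZ : ‖riemannZeta s‖ = ZZ s.im := by
      unfold ZZ
      rw [← hscp]
    rw [hZ]
    have hZ0 : 0 ≤ ZZ s.im := norm_nonneg _
    have hpw : (1 + L * |s.im - t₀|) ^ m ≤ 17 ^ m :=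
      pow_le_pow_left₀ (by positivity) (by linarith) m
    have h5 : ZZ s.im ≤ 17 ^ m * S2 m γ T t₀ := by
      have hpos : 0 < (1 + L * |s.im - t₀|) ^ m := by positivity
      rw [div_le_iff₀ hpos] at hone
      calc ZZ s.im ≤ S2 m γ T t₀ * (1 + L * |s.im - t₀|) ^ m := hone
        _ ≤ S2 m γ T t₀ * 17 ^ m := mul_le_mul_of_nonneg_left hpw hS2
        _ = 17 ^ m * S2 m γ T t₀ := mul_comm _ _
    have h6 : 0 ≤ 17 ^ m * (4 * C2 * CK) * S2 m γ T t₀ := by positivity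
    calc ZZ s.im ≤ 17 ^ m * S2 m γ T t₀ := h5
      _ ≤ 17 ^ m * (1 + 4 * C2 * CK) * S2 m γ T t₀ + T ^ (-(1 / 2 : ℝ)) := by nlinarith
  · obtain ⟨K, hK1, hK2, hK3, hK4⟩ := hKer T hTK
    obtain ⟨a, b, ha1, ha2, hb1, hb2, hres⟩ := hRes c T s K hc1 hTR (by linarith) (by linarith)
      hre hw hK1 hK2 hK3
    have hfin : (PP c 2 ∩ Ioo a b).Finite :=
      (hPPfin c 2 hc1 (by norm_num) b).subset fun t ht => ⟨ht.1, ht.2.2.le⟩
    rw [finsum_mem_eq_finite_toFinset_sum _ hfin] at hres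
    set F := hfin.toFinset with hFdef
    have hFmem : ∀ t ∈ F, 100 ≤ t ∧ ww c 2 (cp t) = 1 ∧ a < t ∧ t < b := by
      intro t ht
      rw [hFdef, Set.Finite.mem_toFinset] at ht
      exact ⟨ht.1.1.le, ht.1.2, ht.2.1, ht.2.2⟩
    set SS0 : ℂ := ∑ t ∈ F, riemannZeta (cp t) * K (cp t - s) / (2 * (lam t : ℂ) * (cp t - s))
      with hSS
    have h1w : 1 - ww c 2 s ≠ 0 := fun h => hw (sub_eq_zero.1 h).symm
    have hz : riemannZeta s = (1 - ww c 2 s) *
        ((riemannZeta s / (1 - ww c 2 s) + SS0) - SS0) := by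
      rw [add_sub_cancel_right, mul_div_cancel₀ _ h1w]
    have hwb : ‖1 - ww c 2 s‖ ≤ 1 + C2 := by
      refine (norm_sub_le _ _).trans ?_
      rw [norm_one]
      linarith [hbd s hre (by linarith) (by linarith)]
    -- the terms
    have hterm : ∀ t ∈ F, ‖1 - ww c 2 s‖ * ‖riemannZeta (cp t) * K (cp t - s) /
        (2 * (lam t : ℂ) * (cp t - s))‖ ≤
        4 * C2 * CK * 17 ^ m * (ZZ t / (1 + L * |t - t₀|) ^ m) := by
      intro t ht
      obtain ⟨ht100, htw, hta, htb⟩ := hFmem t ht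
      have htlo : T / 10 ≤ t := by linarith
      have hthi : t ≤ 70 * T := by linarith
      have h3 : ‖1 - ww c 2 s‖ ≤ 4 * C2 * L * ‖cp t - s‖ := by
        have := hlipc s (cp t) hre (by linarith) (by linarith)
          (by rw [cp_re, sub_self, abs_zero]; positivity) (by rw [cp_im]; exact htlo)
          (by rw [cp_im]; exact hthi)
        rwa [htw] at this
      have hlamt : L / 2 ≤ lam t := by
        have h4 := (abs_le.1 (hlam t (by linarith)).2.1).1
        have h5 : 14 / t ≤ 1 := by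
          rw [div_le_one (by linarith)]
          linarith
        have h6 : L - 62 ≤ Real.log (t / (2 * Real.pi)) := by
          have hpi : Real.pi ≤ 3.15 := Real.pi_lt_d2.le
          have h7 : Real.log (T / 63) ≤ Real.log (t / (2 * Real.pi)) := by
            refine Real.log_le_log (by positivity) ?_
            rw [div_le_div_iff₀ (by norm_num) (by positivity)]
            nlinarith
          rw [Real.log_div (by linarith) (by norm_num)] at h7
          have h8 : Real.log 63 ≤ 63 - 1 := Real.log_le_sub_one_of_pos (by norm_num)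
          linarith
        linarith
      have hlampos : 0 < lam t := by linarith
      have hne : cp t - s ≠ 0 := by
        intro h
        apply hw
        rw [sub_eq_zero] at h
        rw [← h]
        exact htw
      have hnpos : 0 < ‖cp t - s‖ := norm_pos_iff.2 hne
      have hKb : ‖K (cp t - s)‖ ≤ CK / (1 + L * |t - s.im|) ^ m := by
        have := hK4 (cp t - s) (by rw [Complex.sub_re, cp_re, abs_sub_comm]; exact hre) (by
          rw [Complex.sub_im, cp_im, abs_le]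
          constructor <;> linarith)
        rwa [Complex.sub_im, cp_im] at this
      have hwt : 1 / (1 + L * |t - s.im|) ^ m ≤ 17 ^ m / (1 + L * |t - t₀|) ^ m := by
        refine weight_le hLpos.le ?_
        have h9 : |t - t₀| ≤ |t - s.im| + |s.im - t₀| := abs_sub_le _ _ _
        have h10 := mul_le_mul_of_nonneg_left h9 hLpos.le
        rw [mul_add] at h10
        linarith
      rw [norm_div, norm_mul, norm_mul, norm_mul, Complex.norm_real, Real.norm_eq_abs,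
        abs_of_pos hlampos]
      have h22 : ‖(2 : ℂ)‖ = 2 := by simp
      rw [h22]
      have hZ0 : 0 ≤ ‖riemannZeta (cp t)‖ := norm_nonneg _
      calc ‖1 - ww c 2 s‖ * (‖riemannZeta (cp t)‖ * ‖K (cp t - s)‖ / (2 * lam t * ‖cp t - s‖))
          ≤ (4 * C2 * L * ‖cp t - s‖) *
            (‖riemannZeta (cp t)‖ * ‖K (cp t - s)‖ / (2 * lam t * ‖cp t - s‖)) :=
            mul_le_mul_of_nonneg_right h3 (by positivity)
        _ = 4 * C2 * (L / (2 * lam t)) * ‖riemannZeta (cp t)‖ * ‖K (cp t - s)‖ := by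
            field_simp
        _ ≤ 4 * C2 * 1 * ‖riemannZeta (cp t)‖ * (CK / (1 + L * |t - s.im|) ^ m) := by
            have h11 : L / (2 * lam t) ≤ 1 := by
              rw [div_le_one (by positivity)]
              linarith
            gcongr
        _ = 4 * C2 * CK * ‖riemannZeta (cp t)‖ * (1 / (1 + L * |t - s.im|) ^ m) := by ring
        _ ≤ 4 * C2 * CK * ‖riemannZeta (cp t)‖ * (17 ^ m / (1 + L * |t - t₀|) ^ m) :=
            mul_le_mul_of_nonneg_left hwt (by positivity)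
        _ = 4 * C2 * CK * 17 ^ m * (ZZ t / (1 + L * |t - t₀|) ^ m) := by
            unfold ZZ
            ring
    have hsum : ‖1 - ww c 2 s‖ * ‖SS0‖ ≤ 4 * C2 * CK * 17 ^ m * S2 m γ T t₀ := by
      calc ‖1 - ww c 2 s‖ * ‖SS0‖ ≤ ‖1 - ww c 2 s‖ * ∑ t ∈ F, ‖riemannZeta (cp t) *
            K (cp t - s) / (2 * (lam t : ℂ) * (cp t - s))‖ :=
            mul_le_mul_of_nonneg_left (norm_sum_le _ _) (norm_nonneg _)
        _ ≤ ∑ t ∈ F, 4 * C2 * CK * 17 ^ m * (ZZ t / (1 + L * |t - t₀|) ^ m) := by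
            rw [Finset.mul_sum]
            exact Finset.sum_le_sum hterm
        _ ≤ 4 * C2 * CK * 17 ^ m * S2 m γ T t₀ := by
            rw [← Finset.mul_sum]
            refine mul_le_mul_of_nonneg_left ?_ (by positivity)
            refine sum_le hTau hXX m γ T t₀ (by linarith) F fun t ht => ?_
            obtain ⟨q1, q2, q3, q4⟩ := hFmem t ht
            rw [← hcdef]
            exact ⟨q1, q2, by linarith, by linarith⟩
    have herr : (1 + C2) * (CR * T ^ (-(3 / 4 : ℝ))) ≤ T ^ (-(1 / 2 : ℝ)) := by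
      have hTpos : 0 < T := by linarith
      have e1 : T ^ (-(3 / 4 : ℝ)) = T ^ (-(1 / 2 : ℝ)) * T ^ (-(1 / 4 : ℝ)) := by
        rw [← Real.rpow_add hTpos]
        congr 1
        norm_num
      have hx0 : 0 ≤ (1 + C2) * |CR| + 1 := by positivity
      have e2 : (1 + C2) * |CR| + 1 ≤ T ^ (1 / 4 : ℝ) := by
        have h12 : ((((1 + C2) * |CR| + 1) ^ 4 : ℝ)) ^ (1 / 4 : ℝ) ≤ T ^ (1 / 4 : ℝ) :=
          Real.rpow_le_rpow (by positivity) hT4 (by norm_num)
        rw [← Real.rpow_natCast, ← Real.rpow_mul hx0] at h12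
        norm_num at h12
        exact h12
      have e3 : T ^ (-(1 / 4 : ℝ)) * T ^ (1 / 4 : ℝ) = 1 := by
        rw [← Real.rpow_add hTpos]
        norm_num
      have e4 : 0 ≤ T ^ (-(1 / 4 : ℝ)) := Real.rpow_nonneg hTpos.le _
      have e5 : (1 + C2) * CR * T ^ (-(1 / 4 : ℝ)) ≤ 1 := by
        have h13 : (1 + C2) * CR ≤ T ^ (1 / 4 : ℝ) := by
          have := mul_le_mul_of_nonneg_left (le_abs_self CR) (by linarith : (0 : ℝ) ≤ 1 + C2)
          linarith
        calc (1 + C2) * CR * T ^ (-(1 / 4 : ℝ)) ≤ T ^ (1 / 4 : ℝ) * T ^ (-(1 / 4 : ℝ)) :=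
              mul_le_mul_of_nonneg_right h13 e4
          _ = 1 := by rw [mul_comm]; exact e3
      rw [e1]
      calc (1 + C2) * (CR * (T ^ (-(1 / 2 : ℝ)) * T ^ (-(1 / 4 : ℝ)))) =
            T ^ (-(1 / 2 : ℝ)) * ((1 + C2) * CR * T ^ (-(1 / 4 : ℝ))) := by ring
        _ ≤ T ^ (-(1 / 2 : ℝ)) * 1 := mul_le_mul_of_nonneg_left e5 hTh
        _ = T ^ (-(1 / 2 : ℝ)) := mul_one _
    have hmain : ‖riemannZeta s‖ ≤ (1 + C2) * (CR * T ^ (-(3 / 4 : ℝ))) +
        4 * C2 * CK * 17 ^ m * S2 m γ T t₀ := by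
      calc ‖riemannZeta s‖ = ‖1 - ww c 2 s‖ *
            ‖(riemannZeta s / (1 - ww c 2 s) + SS0) - SS0‖ := by
            rw [← norm_mul, ← hz]
        _ ≤ ‖1 - ww c 2 s‖ * (‖riemannZeta s / (1 - ww c 2 s) + SS0‖ + ‖SS0‖) :=
            mul_le_mul_of_nonneg_left (norm_sub_le _ _) (norm_nonneg _)
        _ = ‖1 - ww c 2 s‖ * ‖riemannZeta s / (1 - ww c 2 s) + SS0‖ + ‖1 - ww c 2 s‖ * ‖SS0‖ :=
            mul_add _ _ _
        _ ≤ (1 + C2) * (CR * T ^ (-(3 / 4 : ℝ))) + 4 * C2 * CK * 17 ^ m * S2 m γ T t₀ :=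
            add_le_add (mul_le_mul hwb hres (norm_nonneg _) (by linarith)) hsum
    have h6 : 0 ≤ 17 ^ m * S2 m γ T t₀ := by positivity
    calc ‖riemannZeta s‖ ≤ T ^ (-(1 / 2 : ℝ)) + 4 * C2 * CK * 17 ^ m * S2 m γ T t₀ := by
          linarith
      _ ≤ 17 ^ m * (1 + 4 * C2 * CK) * S2 m γ T t₀ + T ^ (-(1 / 2 : ℝ)) := by nlinarith

end Pool.Agent.W924.MZ
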